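import Mathlib
import Pool.Agent.W300.FT.Stm

set_option autoImplicit false

/-!
# Independence for the modified process
-/

namespace Pool.Agent.W24.FT
open MeasureTheory ProbabilityTheory Pool.Agent.W300.FT

variable {V : Type}

/-- the vertices at distance at most two -/
def N2 (G : SimpleGraph V) (A : Set V) : Set V := {u | ∃ a ∈ A, G.dist a u ≤ 2}

/-- the vertices at distance at most one -/
def N1 (G : SimpleGraph V) (A : Set V) : Set V := {u | ∃ a ∈ A, G.dist a u ≤ 1}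

lemma N1_sub {G : SimpleGraph V} {A : Set V} {x : V} (h : x ∈ N1 G A) : x ∈ N2 G A := by
  obtain ⟨a, ha, h⟩ := h
  exact ⟨a, ha, by omega⟩

lemma N1_adj {G : SimpleGraph V} (hG : G.Connected) {A : Set V} {x u : V} (h : x ∈ N1 G A) (hu : G.Adj x u) :
    u ∈ N2 G A := by
  obtain ⟨a, ha, h⟩ := h
  refine ⟨a, ha, ?_⟩
  have h1 := hG.dist_triangle (u := a) (v := x) (w := u)
  have h2 : G.dist x u = 1 := SimpleGraph.dist_eq_one_iff_adj.mpr hu
  omega

lemma et_congr {G : SimpleGraph V} {ω ω' : V × K → Bool} {v : V}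
    (h : ∀ u, G.Adj v u → ∀ k, ω (u, k) = ω' (u, k)) (c : ℕ × ℕ) (j : ℕ) :
    et G ω c j v ↔ et G ω' c j v := by
  unfold et
  apply existsUnique_congr
  intro u
  constructor
  · rintro ⟨h1, h2⟩; exact ⟨h1, by rw [← h u h1]; exact h2⟩
  · rintro ⟨h1, h2⟩; exact ⟨h1, by rw [h u h1]; exact h2⟩

lemma Ch_congr {G : SimpleGraph V} (hG : G.Connected) {A : Set V} {ω ω' : V × K → Bool}
    (hω : ∀ u ∈ N2 G A, ∀ k, ω (u, k) = ω' (u, k)) {c : ℕ × ℕ} {γ : ℕ → V}
    (hγ : ∀ j ≤ c.1 + 2, γ j ∈ N1 G A) (h : Ch G ω c γ) : Ch G ω' c γ := by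
  intro j hj
  obtain ⟨h1, h2, h3, h4, h5⟩ := h j hj
  have n1 := hγ j (by omega)
  have n2 := hγ (j + 1) (by omega)
  refine ⟨h1, ?_, ?_, ?_, ?_⟩
  · rw [← hω _ (N1_sub n1)]; exact h2
  · rw [← hω _ (N1_sub n2)]; exact h3
  · exact (et_congr (fun u hu k => hω u (N1_adj hG n1 hu) k) c j).mp h4
  · exact (et_congr (fun u hu k => hω u (N1_adj hG n2 hu) k) c j).mp h5

lemma fm_congr {G : SimpleGraph V} {A : Set V} {ω ω' : V × K → Bool}
    (hω : ∀ u ∈ N2 G A, ∀ k, ω (u, k) = ω' (u, k)) {c : ℕ × ℕ} {γ : ℕ → V} (i : ℕ)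
    (hγ : ∀ j ≤ c.1 + 2, γ j ∈ N1 G A) : fm ω c i γ = fm ω' c i γ := by
  unfold fm
  rw [hω _ (N1_sub (hγ 0 (by omega))), hω _ (N1_sub (hγ (c.1 + 2) le_rfl))]
  congr 1
  apply Finset.sum_congr rfl
  intro j hj
  rw [Finset.mem_Ioo] at hj
  rw [hω _ (N1_sub (hγ j (by omega)))]

lemma fm_congr2 {ω : V × K → Bool} {c : ℕ × ℕ} {γ γ' : ℕ → V} (i : ℕ)
    (hγ : ∀ j ≤ c.1 + 2, γ j = γ' j) : fm ω c i γ = fm ω c i γ' := by
  unfold fm
  rw [hγ 0 (by omega), hγ (c.1 + 2) le_rfl]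
  congr 1
  apply Finset.sum_congr rfl
  intro j hj
  rw [Finset.mem_Ioo] at hj
  rw [hγ j (by omega)]

lemma uniq {G : SimpleGraph V} {ω : V × K → Bool} {c : ℕ × ℕ} {γ γ' : ℕ → V} (h : Ch G ω c γ) (h' : Ch G ω c γ')
    (h1 : γ 1 = γ' 1) : ∀ j ≤ c.1 + 2, γ j = γ' j := by
  have hup : ∀ j, 1 ≤ j → j ≤ c.1 + 2 → γ j = γ' j := by
    intro j hj
    induction j, hj using Nat.le_induction with
    | base => intro _; exact h1
    | succ j hj ih =>
      intro hj2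
      have e := ih (by omega)
      obtain ⟨a1, a2, a3, a4, a5⟩ := h j (by omega)
      obtain ⟨b1, b2, b3, b4, b5⟩ := h' j (by omega)
      rw [← e] at b1
      exact a4.unique ⟨a1, a3⟩ ⟨b1, b3⟩
  intro j hj
  rcases Nat.eq_zero_or_pos j with h0 | h0
  · subst h0
    obtain ⟨a1, a2, a3, a4, a5⟩ := h 0 (by omega)
    obtain ⟨b1, b2, b3, b4, b5⟩ := h' 0 (by omega)
    rw [zero_add] at a1 a3 a5 b1 b3 b5
    rw [← h1] at b1
    exact a5.unique ⟨a1.symm, a2⟩ ⟨b1.symm, b2⟩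
  · exact hup j h0 hj

lemma interior {G : SimpleGraph V} {A B : Set V} (hAB : ∀ a ∈ A, ∀ b ∈ B, 6 < G.dist a b) {ω : V × K → Bool}
    {c : ℕ × ℕ} {γ : ℕ → V} (h : Ch G ω c γ) (h1 : γ 1 ∈ A) (hC : ∀ j ∈ Finset.Ioo 0 (c.1 + 2), γ j ∈ A ∪ B) :
    ∀ j ≤ c.1 + 2, γ j ∈ N1 G A := by
  have hA : ∀ j, 1 ≤ j → j < c.1 + 2 → γ j ∈ A := by
    intro j hj
    induction j, hj using Nat.le_induction with
    | base => intro _; exact h1
    | succ j hj ih =>
      intro hj2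
      have e := ih (by omega)
      rcases hC (j + 1) (Finset.mem_Ioo.mpr ⟨by omega, hj2⟩) with h2 | h2
      · exact h2
      · exfalso
        have h3 := hAB _ e _ h2
        have h4 := (h j (by omega)).1
        rw [SimpleGraph.dist_eq_one_iff_adj.mpr h4] at h3
        omega
  intro j hj
  rcases Nat.eq_zero_or_pos j with h0 | h0
  · subst h0
    have h4 := (h 0 (by omega)).1
    rw [zero_add] at h4
    exact ⟨γ 1, h1, by rw [SimpleGraph.dist_eq_one_iff_adj.mpr h4.symm]⟩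
  · rcases Nat.lt_or_ge j (c.1 + 2) with h2 | h2
    · exact ⟨γ j, hA j h0 h2, by rw [SimpleGraph.dist_self]; omega⟩
    · have : j = c.1 + 2 := by omega
      subst this
      have h4 := (h (c.1 + 1) (by omega)).1
      exact ⟨γ (c.1 + 1), hA _ (by omega) (by omega), by
        rw [SimpleGraph.dist_eq_one_iff_adj.mpr h4]⟩

/-- the existence of the chain depends only on the neighbourhood -/
lemma ex_congr {G : SimpleGraph V} (hG : G.Connected) {A B : Set V} (hAB : ∀ a ∈ A, ∀ b ∈ B, 6 < G.dist a b)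
    {ω ω' : V × K → Bool} (hω : ∀ u ∈ N2 G A, ∀ k, ω (u, k) = ω' (u, k)) {c : ℕ × ℕ} {v : V} (hv : v ∈ A)
    {γ : ℕ → V} (h : γ 1 = v ∧ Ch G ω c γ ∧ ∀ j ∈ Finset.Ioo 0 (c.1 + 2), γ j ∈ A ∪ B) (i : ℕ) :
    (γ 1 = v ∧ Ch G ω' c γ ∧ ∀ j ∈ Finset.Ioo 0 (c.1 + 2), γ j ∈ A ∪ B) ∧
    ((∃ γ : ℕ → V, γ 1 = v ∧ Ch G ω c γ ∧ fm ω c i γ = 1) ↔
      (∃ γ : ℕ → V, γ 1 = v ∧ Ch G ω' c γ ∧ fm ω' c i γ = 1)) := by
  obtain ⟨h1, h2, h3⟩ := h
  have hN := interior hAB h2 (by rw [h1]; exact hv) h3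
  have h2' := Ch_congr hG hω hN h2
  refine ⟨⟨h1, h2', h3⟩, ?_⟩
  have hf := fm_congr hω i hN
  constructor
  · rintro ⟨γ', g1, g2, g3⟩
    have hu := uniq h2 g2 (by rw [h1, g1])
    refine ⟨γ, h1, h2', ?_⟩
    rw [← hf, fm_congr2 i hu]; exact g3
  · rintro ⟨γ', g1, g2, g3⟩
    have hu := uniq h2' g2 (by rw [h1, g1])
    refine ⟨γ, h1, h2, ?_⟩
    rw [hf, fm_congr2 i hu]; exact g3

lemma PsiC_congr {G : SimpleGraph V} (hG : G.Connected) {A B : Set V} (hAB : ∀ a ∈ A, ∀ b ∈ B, 6 < G.dist a b)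
    {ω ω' : V × K → Bool} (hω : ∀ u ∈ N2 G A, ∀ k, ω (u, k) = ω' (u, k)) {v : V} (hv : v ∈ A) :
    PsiC G (A ∪ B) ω v = PsiC G (A ∪ B) ω' v := by
  funext k
  have hv1 : v ∈ N1 G A := ⟨v, hv, by rw [SimpleGraph.dist_self]; omega⟩
  unfold PsiC
  by_cases h0 : k.2.2 = 0
  · rw [if_pos h0, if_pos h0]; exact hω v (N1_sub hv1) k
  rw [if_neg h0, if_neg h0]
  by_cases h1 : k.2.2 = 1
  · rw [if_pos h1, if_pos h1]
    exact decide_eq_decide.mpr (et_congr (fun u hu k => hω u (N1_adj hG hv1 hu) k) _ _)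
  rw [if_neg h1, if_neg h1]
  by_cases hP : k.2.1 = 1 ∧ ∃ γ : ℕ → V, γ 1 = v ∧ Ch G ω k.1 γ ∧ ∀ j ∈ Finset.Ioo 0 (k.1.1 + 2), γ j ∈ A ∪ B
  · obtain ⟨hk, γ, hγ⟩ := hP
    obtain ⟨q1, q2⟩ := ex_congr hG hAB hω hv hγ k.2.2
    rw [if_pos ⟨hk, γ, hγ⟩, if_pos ⟨hk, γ, q1⟩]
    exact decide_eq_decide.mpr q2
  · have hP' : ¬ (k.2.1 = 1 ∧ ∃ γ : ℕ → V, γ 1 = v ∧ Ch G ω' k.1 γ ∧ ∀ j ∈ Finset.Ioo 0 (k.1.1 + 2), γ j ∈ A ∪ B) := by
      rintro ⟨hk, γ, hγ⟩
      exact hP ⟨hk, γ, (ex_congr hG hAB (fun u hu k => (hω u hu k).symm) hv hγ k.2.2).1⟩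
    rw [if_neg hP, if_neg hP']
    exact hω v (N1_sub hv1) k

instance coin_prob : IsProbabilityMeasure coin := by
  constructor
  unfold coin
  rw [Measure.add_apply, Measure.smul_apply, Measure.smul_apply]
  simp only [measure_univ, smul_eq_mul, mul_one]
  exact ENNReal.add_halves 1

/-- a measurable function of the coordinates in `S` -/
lemma comap_le {E α : Type} [MeasurableSpace α] (S : Set E) (f : (E → Bool) → α) (hf : Measurable f)
    (hdep : ∀ ω ω' : E → Bool, (∀ e ∈ S, ω e = ω' e) → f ω = f ω') :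
    MeasurableSpace.comap f inferInstance ≤
      ⨆ e ∈ S, MeasurableSpace.comap (fun ω : E → Bool => ω e) inferInstance := by
  classical
  set m := ⨆ e ∈ S, MeasurableSpace.comap (fun ω : E → Bool => ω e) (inferInstance : MeasurableSpace Bool) with hm
  set r : (E → Bool) → (E → Bool) := fun ω e => if e ∈ S then ω e else false with hr
  have h1 : f = f ∘ r := by
    funext ω
    apply hdep
    intro e he
    simp only [hr, if_pos he]
  have h2 : @Measurable (E → Bool) (E → Bool) m MeasurableSpace.pi r := by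
    rw [measurable_pi_iff]
    intro e
    by_cases he : e ∈ S
    · have : (fun ω : E → Bool => r ω e) = fun ω => ω e := by funext ω; simp only [hr, if_pos he]
      rw [this]
      rw [measurable_iff_comap_le]
      exact le_iSup₂_of_le e he le_rfl
    · have : (fun ω : E → Bool => r ω e) = fun _ => false := by funext ω; simp only [hr, if_neg he]
      rw [this]
      exact @measurable_const _ _ _ m false
  have h3 : @Measurable (E → Bool) α m _ (f ∘ r) := hf.comp h2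
  rw [← h1] at h3
  exact measurable_iff_comap_le.mp h3

theorem fd2 (hm : S_MEAS) : S_FD2 := by
  intro V G A B hV hG hAB
  have hmeas := (hm V G (A ∪ B) hV).2
  have hBA : ∀ b ∈ B, ∀ a ∈ A, 6 < G.dist b a := fun b hb a ha => by
    rw [SimpleGraph.dist_comm]; exact hAB a ha b hb
  have hcoord : iIndepFun (fun (e : V × K) (ω : V × K → Bool) => ω e) (PC (V × K)) :=
    iIndepFun_infinitePi (P := fun _ : V × K => coin) (X := fun _ => id) (fun _ => measurable_id)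
  have hdisj : Disjoint {e : V × K | e.1 ∈ N2 G A} {e : V × K | e.1 ∈ N2 G B} := by
    rw [Set.disjoint_left]
    rintro e ⟨a, ha, h1⟩ ⟨b, hb, h2⟩
    have h3 := hAB a ha b hb
    have h4 := hG.dist_triangle (u := a) (v := e.1) (w := b)
    rw [SimpleGraph.dist_comm (u := e.1)] at h4
    omega
  have hind := indep_iSup_of_disjoint (m := fun e : V × K => MeasurableSpace.comap (fun ω : V × K → Bool => ω e) inferInstance)
    (fun e => (measurable_pi_apply e).comap_le) hcoord hdisj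
  have c1 := comap_le {e : V × K | e.1 ∈ N2 G A} (fun ω (v : A) => PsiC G (A ∪ B) ω v)
    (measurable_pi_iff.mpr fun v => (measurable_pi_apply (v : V)).comp hmeas) (by
      intro ω ω' h
      funext v
      exact PsiC_congr hG hAB (fun u hu k => h (u, k) hu) v.2)
  have c2 := comap_le {e : V × K | e.1 ∈ N2 G B} (fun ω (v : B) => PsiC G (A ∪ B) ω v)
    (measurable_pi_iff.mpr fun v => (measurable_pi_apply (v : V)).comp hmeas) (by
      intro ω ω' h
      funext v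
      rw [Set.union_comm]
      exact PsiC_congr hG hBA (fun u hu k => h (u, k) hu) v.2)
  exact indep_of_indep_of_le_left (indep_of_indep_of_le_right hind c2) c1

end Pool.Agent.W24.FT
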